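import Pool.Agent.helper17.HH.SpecB

/-!
# MP_07c750, project HH: row hh:BCS (one good w0)
-/

open scoped Pointwise
open MeasureTheory Set

set_option autoImplicit false

namespace Pool.Agent.HH

theorem BCS_card (U A B : Finset (ℤ × ℤ)) (hA : A ⊆ U) :
    ((A ∩ B).card : ℝ) = ∑ u ∈ U, (if u ∈ A then (1 : ℝ) else 0) * (if u ∈ B then (1 : ℝ) else 0) := by
  have h1 : ∀ u ∈ U, (if u ∈ A then (1 : ℝ) else 0) * (if u ∈ B then (1 : ℝ) else 0) = if u ∈ A ∩ B then (1 : ℝ) else 0 := by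
    intro u _
    by_cases h1 : u ∈ A <;> by_cases h2 : u ∈ B <;> simp [h1, h2]
  rw [Finset.sum_congr rfl h1, Finset.sum_boole]
  congr 2
  ext u
  simp only [Finset.mem_filter, Finset.mem_inter]
  constructor
  · exact fun h => ⟨hA h.1, h⟩
  · exact fun h => h.2

theorem BCS_proof : BCS_stmt := by
  intro γ W U Z hγ hγ1 hW hZ
  have hγ2 : 0 ≤ γ ^ 2 := sq_nonneg γ
  have hγ3 : γ ^ 2 ≤ 1 := by nlinarith
  rcases U.eq_empty_or_nonempty with hU | hU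
  · obtain ⟨w0, hw0⟩ := hW
    refine ⟨w0, hw0, ?_⟩
    have h1 : (W.filter fun w => γ ^ 2 / 2 * (U.card : ℝ) ≤ ((Z w ∩ Z w0).card : ℝ)) = W := by
      refine Finset.filter_true_of_mem fun w _ => ?_
      rw [hU, Finset.card_empty, Nat.cast_zero, mul_zero]
      exact Nat.cast_nonneg _
    rw [h1]
    have h2 : (0 : ℝ) ≤ W.card := Nat.cast_nonneg _
    nlinarith
  · have hUp : (0 : ℝ) < U.card := by exact_mod_cast hU.card_pos
    have hWp : (0 : ℝ) < W.card := by exact_mod_cast hW.card_pos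
    obtain ⟨d, hd⟩ : ∃ d : ℤ → ℤ × ℤ → ℝ, d = fun w u => if u ∈ Z w then (1 : ℝ) else 0 := ⟨_, rfl⟩
    have h1 : ∀ w ∈ W, ∀ w' ∈ W, ((Z w ∩ Z w').card : ℝ) = ∑ u ∈ U, d w u * d w' u := by
      intro w hw w' hw'
      rw [hd]
      exact BCS_card U (Z w) (Z w') (hZ w hw).1
    have h2 : ∀ w ∈ W, ((Z w).card : ℝ) = ∑ u ∈ U, d w u := by
      intro w hw
      have h3 := h1 w hw w hw
      rw [Finset.inter_self] at h3
      rw [h3]
      refine Finset.sum_congr rfl fun u _ => ?_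
      rw [hd]
      show (if u ∈ Z w then (1 : ℝ) else 0) * (if u ∈ Z w then (1 : ℝ) else 0) = if u ∈ Z w then (1 : ℝ) else 0
      split_ifs <;> norm_num
    have h3 : ∑ w0 ∈ W, ∑ w ∈ W, ((Z w ∩ Z w0).card : ℝ) = ∑ u ∈ U, (∑ w ∈ W, d w u) ^ 2 := by
      have e1 : ∀ w0 ∈ W, ∑ w ∈ W, ((Z w ∩ Z w0).card : ℝ) = ∑ w ∈ W, ∑ u ∈ U, d w u * d w0 u := fun w0 hw0 =>
        Finset.sum_congr rfl fun w hw => h1 w hw w0 hw0
      rw [Finset.sum_congr rfl e1]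
      have e2 : ∀ u ∈ U, (∑ w ∈ W, d w u) ^ 2 = ∑ w0 ∈ W, ∑ w ∈ W, d w u * d w0 u := by
        intro u _
        rw [sq, Finset.sum_mul_sum]
        exact Finset.sum_comm
      rw [Finset.sum_congr rfl e2]
      calc ∑ w0 ∈ W, ∑ w ∈ W, ∑ u ∈ U, d w u * d w0 u = ∑ w0 ∈ W, ∑ u ∈ U, ∑ w ∈ W, d w u * d w0 u :=
            Finset.sum_congr rfl fun w0 _ => Finset.sum_comm
        _ = ∑ u ∈ U, ∑ w0 ∈ W, ∑ w ∈ W, d w u * d w0 u := Finset.sum_comm
    have h4 : (∑ w ∈ W, ((Z w).card : ℝ)) ^ 2 ≤ U.card * ∑ u ∈ U, (∑ w ∈ W, d w u) ^ 2 := by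
      have e1 : ∑ w ∈ W, ((Z w).card : ℝ) = ∑ u ∈ U, ∑ w ∈ W, d w u := by
        rw [Finset.sum_congr rfl h2, Finset.sum_comm]
      rw [e1]
      exact sq_sum_le_card_mul_sum_sq
    have h5 : γ * U.card * W.card ≤ ∑ w ∈ W, ((Z w).card : ℝ) := by
      calc γ * U.card * W.card = ∑ w ∈ W, γ * (U.card : ℝ) := by rw [Finset.sum_const, nsmul_eq_mul]; ring
        _ ≤ _ := Finset.sum_le_sum fun w hw => (hZ w hw).2
    have h6 : γ ^ 2 * W.card * U.card * W.card ≤ ∑ w0 ∈ W, ∑ w ∈ W, ((Z w ∩ Z w0).card : ℝ) := by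
      rw [h3]
      have e1 : (γ * U.card * W.card) ^ 2 ≤ U.card * ∑ u ∈ U, (∑ w ∈ W, d w u) ^ 2 :=
        (pow_le_pow_left₀ (by positivity) h5 2).trans h4
      have e2 : (U.card : ℝ) * (γ ^ 2 * W.card * U.card * W.card) ≤ U.card * ∑ u ∈ U, (∑ w ∈ W, d w u) ^ 2 := by
        calc (U.card : ℝ) * (γ ^ 2 * W.card * U.card * W.card) = (γ * U.card * W.card) ^ 2 := by ring
          _ ≤ _ := e1
      exact le_of_mul_le_mul_left e2 hUp
    obtain ⟨w0, hw0, h7⟩ : ∃ w0 ∈ W, γ ^ 2 * W.card * U.card ≤ ∑ w ∈ W, ((Z w ∩ Z w0).card : ℝ) := by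
      refine Finset.exists_le_of_sum_le hW ?_
      rw [Finset.sum_const, nsmul_eq_mul]
      calc (W.card : ℝ) * (γ ^ 2 * W.card * U.card) = γ ^ 2 * W.card * U.card * W.card := by ring
        _ ≤ _ := h6
    refine ⟨w0, hw0, ?_⟩
    obtain ⟨T, hT⟩ : ∃ T, T = W.filter fun w => γ ^ 2 / 2 * (U.card : ℝ) ≤ ((Z w ∩ Z w0).card : ℝ) := ⟨_, rfl⟩
    rw [← hT]
    have h8 : ∑ w ∈ W, ((Z w ∩ Z w0).card : ℝ) ≤ ∑ w ∈ W, ((if w ∈ T then (U.card : ℝ) else 0) + γ ^ 2 / 2 * (U.card : ℝ)) := by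
      refine Finset.sum_le_sum fun w hw => ?_
      have e0 : 0 ≤ γ ^ 2 / 2 * (U.card : ℝ) := by positivity
      by_cases hwT : w ∈ T
      · rw [if_pos hwT]
        have e1 : ((Z w ∩ Z w0).card : ℝ) ≤ U.card := by
          exact_mod_cast Finset.card_le_card (Finset.inter_subset_left.trans (hZ w hw).1)
        linarith
      · rw [if_neg hwT]
        have e1 : ¬ γ ^ 2 / 2 * (U.card : ℝ) ≤ ((Z w ∩ Z w0).card : ℝ) := fun h => hwT (by rw [hT]; exact Finset.mem_filter.2 ⟨hw, h⟩)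
        linarith [not_le.1 e1]
    have h9 : ∑ w ∈ W, ((if w ∈ T then (U.card : ℝ) else 0) + γ ^ 2 / 2 * (U.card : ℝ)) = T.card * U.card + W.card * (γ ^ 2 / 2 * U.card) := by
      rw [Finset.sum_add_distrib, Finset.sum_const, nsmul_eq_mul]
      congr 1
      rw [← Finset.sum_filter, Finset.sum_const, nsmul_eq_mul]
      congr 2
      have e1 : (W.filter fun w => w ∈ T) = T := by
        ext w
        rw [Finset.mem_filter]
        constructor
        · exact fun h => h.2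
        · intro h
          rw [hT] at h
          exact ⟨(Finset.mem_filter.1 h).1, by rw [hT]; exact h⟩
      rw [e1]
    have h10 : (U.card : ℝ) * (γ ^ 2 / 2 * W.card) ≤ U.card * T.card := by
      rw [h9] at h8
      nlinarith
    exact le_of_mul_le_mul_left h10 hUp

end Pool.Agent.HH
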